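import Mathlib

open Filter Topology

namespace Pool.Agent.Results.MP_80cb54_al.AllValues

/-- Vertices of the `d`-regular rooted tree are words over `Fin d`, the root is `[]` and the
children of `v` are the words `a :: v`.  A tree automorphism is a permutation of the vertices
fixing the root and sending children of `v` to children of the image of `v`. -/
def IsTreeAut {d : ℕ} (σ : Equiv.Perm (List (Fin d))) : Prop :=
  σ [] = [] ∧ ∀ (a : Fin d) (v : List (Fin d)), ∃ b : Fin d, σ (a :: v) = b :: σ v

/-- `G_n`: the set of restrictions of the elements of `G` to the level `L_n`. -/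
def levelImage {d : ℕ} (G : Subgroup (Equiv.Perm (List (Fin d)))) (n : ℕ) :
    Set (List.Vector (Fin d) n → List (Fin d)) :=
  {f | ∃ σ ∈ G, ∀ v, f v = σ v.1}

/-- proportion of elements of `G_n` fixing at least one vertex of `L_n` -/
noncomputable def fixProp {d : ℕ} (G : Subgroup (Equiv.Perm (List (Fin d)))) (n : ℕ) : ℝ :=
  (({f ∈ levelImage G n | ∃ v, f v = v.1}).ncard : ℝ) / ((levelImage G n).ncard : ℝ)

section
variable {e : ℕ} (act : ℕ → Prop) [DecidablePred act] (m : ℕ → ℕ)

abbrev A (e : ℕ) := Fin (e + 2)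

def g (x : ℕ → List (A e) → A e) : List (A e) → List (A e)
  | [] => []
  | a :: v => (a + if act v.length then x v.length (v.take (m v.length)) else 0) :: g x v

lemma g_len (x : ℕ → List (A e) → A e) : ∀ v, (g act m x v).length = v.length
  | [] => rfl
  | _ :: v => by simp [g, g_len x v]

lemma g_zero : ∀ v : List (A e), g act m 0 v = v
  | [] => rfl
  | _ :: v => by simp [g, g_zero v]

lemma g_congr (x y : ℕ → List (A e) → A e) :
    ∀ v : List (A e), (∀ l < v.length, x l = y l) → g act m x v = g act m y v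
  | [], _ => rfl
  | a :: v, h => by
    simp only [g]
    rw [h v.length (by simp), g_congr x y v (fun l hl => h l (by simp; omega))]

variable {act m}

lemma g_app (hm : ∀ n, m (n + 1) = if act n then 0 else m n + 1) (x : ℕ → List (A e) → A e)
    (u : List (A e)) : ∀ w : List (A e), w.length ≤ m (w.length + u.length) →
      g act m x (w ++ u) = w ++ g act m x u
  | [], _ => rfl
  | a :: w, h => by
    have h1 : (a :: w).length + u.length = (w.length + u.length) + 1 := by simp; omega
    rw [h1, hm] at h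
    by_cases ha : act (w.length + u.length)
    · simp [ha] at h
    · rw [if_neg ha] at h
      simp only [List.cons_append, g, List.length_append, if_neg ha, add_zero]
      rw [g_app hm x u w (by simpa using h)]

lemma g_take (hm : ∀ n, m (n + 1) = if act n then 0 else m n + 1) (x : ℕ → List (A e) → A e) :
    ∀ v : List (A e), (g act m x v).take (m v.length) = v.take (m v.length)
  | [] => rfl
  | a :: v => by
    by_cases ha : act v.length
    · simp [hm, ha]
    · simp [hm, ha, g, g_take hm x v]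

lemma g_add (hm : ∀ n, m (n + 1) = if act n then 0 else m n + 1) (x y : ℕ → List (A e) → A e) :
    ∀ v : List (A e), g act m x (g act m y v) = g act m (x + y) v
  | [] => rfl
  | a :: v => by
    simp only [g, g_len, g_take hm, g_add hm x y v, Pi.add_apply]
    congr 1
    split_ifs <;> abel

def gp (hm : ∀ n, m (n + 1) = if act n then 0 else m n + 1) (x : ℕ → List (A e) → A e) :
    Equiv.Perm (List (A e)) where
  toFun := g act m x
  invFun := g act m (-x)
  left_inv v := by rw [g_add hm, neg_add_cancel, g_zero]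
  right_inv v := by rw [g_add hm, add_neg_cancel, g_zero]

def GG (hm : ∀ n, m (n + 1) = if act n then 0 else m n + 1) :
    Subgroup (Equiv.Perm (List (A e))) where
  carrier := Set.range (gp hm)
  mul_mem' := by
    rintro _ _ ⟨x, rfl⟩ ⟨y, rfl⟩
    exact ⟨x + y, Equiv.ext fun v => (g_add hm x y v).symm⟩
  one_mem' := ⟨0, Equiv.ext fun v => g_zero act m v⟩
  inv_mem' := by
    rintro _ ⟨x, rfl⟩
    refine ⟨-x, Equiv.ext fun v => rfl⟩

lemma mem_level (hm : ∀ n, m (n + 1) = if act n then 0 else m n + 1) (n : ℕ)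
    (f : List.Vector (A e) n → List (A e)) :
    f ∈ levelImage (GG hm) n ↔ ∃ x, ∀ v, f v = g act m x v.1 := by
  constructor
  · rintro ⟨_, ⟨x, rfl⟩, h⟩
    exact ⟨x, h⟩
  · rintro ⟨x, h⟩
    exact ⟨_, ⟨x, rfl⟩, h⟩

def tk {n k : ℕ} (h : k ≤ n) (v : List.Vector (A e) n) : List.Vector (A e) k :=
  ⟨v.1.take k, by rw [List.length_take, v.2]; omega⟩

def Phi {n k : ℕ} (h : k ≤ n)
    (q : (List.Vector (A e) n → List (A e)) × (List.Vector (A e) k → A e)) :
    List.Vector (A e) (n + 1) → List (A e) :=
  fun v => (v.head + q.2 (tk h v.tail)) :: q.1 v.tail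

lemma Phi_cons {n k : ℕ} (h : k ≤ n) (q) (a : A e) (v : List.Vector (A e) n) :
    Phi h q (List.Vector.cons a v) = (a + q.2 (tk h v)) :: q.1 v := by
  simp [Phi]

lemma tk_app {n k : ℕ} (h : k ≤ n) (w : List.Vector (A e) k) (u : List (A e))
    (hu : (w.1 ++ u).length = n) : tk h ⟨w.1 ++ u, hu⟩ = w := by
  apply Subtype.ext
  show (w.1 ++ u).take k = w.1
  rw [List.take_append_of_le_length (by rw [w.2])]
  exact List.take_of_length_le (by rw [w.2])

lemma Phi_inj {n k : ℕ} (h : k ≤ n) : Function.Injective (Phi (e := e) h) := by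
  rintro ⟨f, y⟩ ⟨f', y'⟩ hq
  have key : ∀ v, y (tk h v) = y' (tk h v) ∧ f v = f' v := by
    intro v
    have := congrFun hq (List.Vector.cons 0 v)
    rw [Phi_cons, Phi_cons] at this
    simpa using this
  refine Prod.ext (funext fun v => (key v).2) (funext fun w => ?_)
  have hu : (w.1 ++ List.replicate (n - k) (0 : A e)).length = n := by
    rw [List.length_append, w.2, List.length_replicate]; omega
  have := (key ⟨_, hu⟩).1
  rwa [tk_app] at this

def Y (P : Prop) (k : ℕ) : Set (List.Vector (A e) k → A e) := {y | ¬ P → y = 0}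

lemma vcases {n : ℕ} (v : List.Vector (A e) (n + 1)) : ∃ a u, v = List.Vector.cons a u :=
  ⟨v.head, v.tail, (List.Vector.cons_head_tail v).symm⟩

lemma g_cons {n : ℕ} (h : m n ≤ n) (x : ℕ → List (A e) → A e) (a : A e)
    (u : List.Vector (A e) n) : g act m x (List.Vector.cons a u).1 =
      (a + if act n then x n (tk h u).1 else 0) :: g act m x u.1 := by
  obtain ⟨u, rfl⟩ := u
  rfl

lemma level_succ (hm : ∀ n, m (n + 1) = if act n then 0 else m n + 1) (n : ℕ) (h : m n ≤ n) :
    levelImage (GG (e := e) hm) (n + 1) =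
      Phi h '' (levelImage (GG hm) n ×ˢ Y (act n) (m n)) := by
  ext f
  rw [mem_level]
  constructor
  · rintro ⟨x, hx⟩
    refine ⟨(fun v => g act m x v.1, fun w => if act n then x n w.1 else 0),
      ⟨(mem_level hm _ _).2 ⟨x, fun _ => rfl⟩, fun ha => funext fun w => if_neg ha⟩, ?_⟩
    funext v
    obtain ⟨a, u, rfl⟩ := vcases v
    rw [Phi_cons, hx, g_cons h]
  · rintro ⟨⟨f, y⟩, ⟨hf, hy⟩, rfl⟩
    obtain ⟨x, hx⟩ := (mem_level hm _ _).1 hf
    refine ⟨Function.update x n (fun w => if hw : w.length = m n then y ⟨w, hw⟩ else 0), ?_⟩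
    intro v
    obtain ⟨a, u, rfl⟩ := vcases v
    rw [Phi_cons, g_cons h, Function.update_self, dif_pos (tk h u).2]
    congr 1
    · congr 1
      by_cases ha : act n
      · rw [if_pos ha]; rfl
      · rw [if_neg ha]; exact congrFun (hy ha) _
    · refine (hx u).trans ?_
      apply g_congr
      intro l hl
      rw [Function.update_of_ne (by rw [u.2] at hl; omega)]

lemma fix_succ (hm : ∀ n, m (n + 1) = if act n then 0 else m n + 1) (n : ℕ) (h : m n ≤ n) :
    {f ∈ levelImage (GG (e := e) hm) (n + 1) | ∃ v, f v = v.1} =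
      Phi h '' ({f ∈ levelImage (GG hm) n | ∃ v, f v = v.1} ×ˢ
        {y ∈ Y (act n) (m n) | ∃ w, y w = 0}) := by
  ext f
  rw [level_succ hm n h]
  constructor
  · rintro ⟨⟨⟨f, y⟩, ⟨hf, hy⟩, rfl⟩, v, hv⟩
    obtain ⟨a, u, rfl⟩ := vcases v
    rw [Phi_cons] at hv
    have hv' : (a + y (tk h u)) :: f u = a :: u.1 := by
      rw [hv]; obtain ⟨u, rfl⟩ := u; rfl
    simp only [List.cons.injEq, add_eq_left] at hv'
    exact ⟨(f, y), ⟨⟨hf, u, hv'.2⟩, hy, _, hv'.1⟩, rfl⟩
  · rintro ⟨⟨f, y⟩, ⟨⟨hf, u, hu⟩, hy, w, hw⟩, rfl⟩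
    refine ⟨⟨(f, y), ⟨hf, hy⟩, rfl⟩, ?_⟩
    obtain ⟨x, hx⟩ := (mem_level hm _ _).1 hf
    have l1 : (u.1.take (m n)).length = m n := (tk h u).2
    have l2 : (u.1.drop (m n)).length = n - m n := by rw [List.length_drop, u.2]
    have e1 := g_app hm x (u.1.drop (m n)) (u.1.take (m n))
      (by rw [l1, l2, show m n + (n - m n) = n by omega])
    rw [List.take_append_drop, ← hx u, hu] at e1
    have e2 : g act m x (u.1.drop (m n)) = u.1.drop (m n) := by
      apply List.append_cancel_left (as := u.1.take (m n))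
      rw [← e1, List.take_append_drop]
    have hl : (w.1 ++ u.1.drop (m n)).length = n := by
      rw [List.length_append, w.2, l2]; omega
    have e3 := g_app hm x (u.1.drop (m n)) w.1
      (by rw [w.2, l2, show m n + (n - m n) = n by omega])
    refine ⟨List.Vector.cons 0 ⟨_, hl⟩, ?_⟩
    rw [Phi_cons, tk_app]
    show (0 + y w) :: f _ = 0 :: (w.1 ++ u.1.drop (m n))
    have e4 : f ⟨_, hl⟩ = w.1 ++ u.1.drop (m n) := (hx ⟨_, hl⟩).trans (e3.trans (by rw [e2]))
    rw [e4, show y w = 0 from hw, add_zero]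

end

noncomputable def b (e k : ℕ) : ℝ := 1 - (((e : ℝ) + 1) / ((e : ℝ) + 2)) ^ ((e + 2) ^ k)

lemma ratio (e k : ℕ) (P : Prop) [Decidable P] :
    (({y ∈ Y (e := e) P k | ∃ w, y w = 0}).ncard : ℝ) / ((Y (e := e) P k).ncard : ℝ) =
      if P then b e k else 1 := by
  classical
  by_cases hP : P
  · rw [if_pos hP]
    have h1 : Y (e := e) P k = Set.univ := by ext y; simp [Y, hP]
    have h2 : {y ∈ Y (e := e) P k | ∃ w, y w = 0} =
        ((Fintype.piFinset (fun _ : List.Vector (A e) k => Finset.univ.erase (0 : A e)))ᶜ :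
          Finset (List.Vector (A e) k → A e)) := by
      ext y; simp [h1]
    rw [h2, h1, Set.ncard_coe_finset, Finset.card_compl, Set.ncard_univ, Nat.card_eq_fintype_card,
      Nat.cast_sub (Finset.card_le_univ _), Fintype.card_piFinset, Fintype.card_fun, card_vector]
    simp only [Finset.prod_const, Finset.card_erase_of_mem (Finset.mem_univ _), Finset.card_univ,
      Fintype.card_fin, card_vector, b]
    rw [div_pow]
    push_cast
    field_simp
  · rw [if_neg hP]
    have h1 : Y (e := e) P k = {0} := by ext y; simp [Y, hP]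
    have h2 : {y ∈ Y (e := e) P k | ∃ w, y w = 0} = {0} := by
      ext y
      simp only [h1, Set.mem_singleton_iff, Set.mem_ofPred_eq]
      exact ⟨fun h => h.1, fun h => ⟨h, List.Vector.replicate k 0, by rw [h]; rfl⟩⟩
    rw [h2, h1]; simp

lemma q_lt (e : ℕ) : 0 < ((e : ℝ) + 1) / ((e : ℝ) + 2) ∧ ((e : ℝ) + 1) / ((e : ℝ) + 2) < 1 :=
  ⟨by positivity, by rw [div_lt_one (by positivity)]; linarith⟩

lemma b_lt (e k : ℕ) : b e k < 1 := by
  have := pow_pos (q_lt e).1 ((e + 2) ^ k)
  unfold b; linarith

lemma b_nonneg (e k : ℕ) : 0 ≤ b e k := by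
  have := pow_le_one₀ (n := (e + 2) ^ k) (q_lt e).1.le (q_lt e).2.le
  unfold b; linarith

lemma b_mono (e : ℕ) {k l : ℕ} (h : k ≤ l) : b e k ≤ b e l := by
  have := pow_le_pow_of_le_one (q_lt e).1.le (q_lt e).2.le
    (Nat.pow_le_pow_right (show 0 < e + 2 by omega) h)
  unfold b; linarith

lemma b_lim (e : ℕ) : Tendsto (b e) atTop (𝓝 1) := by
  have h1 := (tendsto_pow_atTop_nhds_zero_of_lt_one (q_lt e).1.le (q_lt e).2).comp
    (tendsto_pow_atTop_atTop_of_one_lt (show 1 < e + 2 by omega))
  have := h1.const_sub 1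
  rw [sub_zero] at this
  exact this

open Classical in
noncomputable def st (e : ℕ) (α : ℝ) : ℕ → ℝ × ℕ
  | 0 => (1, 0)
  | n + 1 => if α ≤ (st e α n).1 * b e (st e α n).2 then ((st e α n).1 * b e (st e α n).2, 0)
      else ((st e α n).1, (st e α n).2 + 1)

lemma st_lim (e : ℕ) (α : ℝ) (h0 : 0 ≤ α) (h1 : α ≤ 1) :
    Tendsto (fun n => (st e α n).1) atTop (𝓝 α) := by
  have hge : ∀ n, α ≤ (st e α n).1 := by
    intro n
    induction n with
    | zero => exact h1
    | succ n ih => rw [st]; split_ifs with h; exacts [h, ih]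
  have hanti : Antitone fun n => (st e α n).1 := by
    apply antitone_nat_of_succ_le
    intro n
    rw [st]; split_ifs with h
    · exact mul_le_of_le_one_right (h0.trans (hge n)) (b_lt _ _).le
    · exact le_rfl
  have hb : BddBelow (Set.range fun n => (st e α n).1) := ⟨α, by rintro _ ⟨n, rfl⟩; exact hge n⟩
  have hl := tendsto_atTop_ciInf hanti hb
  set β := ⨅ n, (st e α n).1 with hβ
  have hβle : ∀ n, β ≤ (st e α n).1 := fun n => ciInf_le hb n
  rcases (le_ciInf hge : α ≤ β).eq_or_lt with h | h
  · exact hl.trans (le_of_eq (congrArg 𝓝 h.symm))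
  exfalso
  have hβ0 : 0 < β := h0.trans_lt h
  have e1 : ∀ᶠ k in atTop, α < β * b e k :=
    ((b_lim e).const_mul β).eventually (lt_mem_nhds (by simpa using h))
  obtain ⟨M, hM⟩ := eventually_atTop.1 e1
  have hmM : ∀ n, (st e α n).2 ≤ M := by
    intro n
    induction n with
    | zero => exact Nat.zero_le _
    | succ n ih =>
      rw [st]; split_ifs with hh
      · exact Nat.zero_le _
      · by_contra hc
        have := hM (st e α n).2 (by simp at hc; omega)
        exact hh (this.le.trans (mul_le_mul_of_nonneg_right (hβle n) (b_nonneg _ _)))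
  have e2 : ∀ᶠ n in atTop, (st e α n).1 * b e M < β :=
    (hl.mul_const (b e M)).eventually (gt_mem_nhds (mul_lt_of_lt_one_right hβ0 (b_lt _ _)))
  obtain ⟨N, hN⟩ := eventually_atTop.1 e2
  have hk : ∀ k, k ≤ (st e α (N + k)).2 := by
    intro k
    induction k with
    | zero => exact Nat.zero_le _
    | succ k ih =>
      have h3 := hβle (N + k + 1)
      rw [← add_assoc]
      rw [st] at h3 ⊢
      split_ifs at h3 ⊢ with hh
      · exfalso
        have h4 := hN (N + k) (by omega)
        have h5 := mul_le_mul_of_nonneg_left (b_mono e (hmM (N + k))) (h0.trans (hge (N + k)))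
        simp only at h3
        linarith
      · simp only; omega
  have := (hk (M + 1)).trans (hmM _)
  omega

theorem result (d : ℕ) (hd : 2 ≤ d) (α : ℝ) (h0 : 0 ≤ α) (h1 : α ≤ 1) :
    ∃ G : Subgroup (Equiv.Perm (List (Fin d))), (∀ σ ∈ G, IsTreeAut σ) ∧
      Tendsto (fixProp G) atTop (𝓝 α) := by
  classical
  obtain ⟨e, rfl⟩ : ∃ e, d = e + 2 := ⟨d - 2, by omega⟩
  let act : ℕ → Prop := fun n => α ≤ (st e α n).1 * b e (st e α n).2
  let m : ℕ → ℕ := fun n => (st e α n).2
  have hm : ∀ n, m (n + 1) = if act n then 0 else m n + 1 := by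
    intro n
    simp only [m, act]
    rw [st]; split_ifs <;> rfl
  have hle : ∀ n, m n ≤ n := by
    intro n
    induction n with
    | zero => exact le_rfl
    | succ n ih => rw [hm]; split_ifs <;> omega
  refine ⟨GG hm, ?_, ?_⟩
  · rintro _ ⟨x, rfl⟩
    exact ⟨rfl, fun a v => ⟨_, rfl⟩⟩
  · have : fixProp (GG (e := e) hm) = fun n => (st e α n).1 := by
      funext n
      induction n with
      | zero =>
        have l0 : levelImage (GG (e := e) hm) 0 = {fun _ => []} := by
          ext f
          rw [mem_level]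
          constructor
          · rintro ⟨x, hx⟩
            funext v
            rw [hx, List.length_eq_zero_iff.1 v.2]; rfl
          · rintro rfl
            exact ⟨0, fun v => by rw [g_zero, List.length_eq_zero_iff.1 v.2]⟩
        have l1 : {f ∈ levelImage (GG (e := e) hm) 0 | ∃ v, f v = v.1} = {fun _ => []} := by
          ext f
          simp only [l0, Set.mem_singleton_iff, Set.mem_ofPred_eq]
          exact ⟨fun h => h.1, fun h => ⟨h, List.Vector.nil, by rw [h]; rfl⟩⟩
        rw [fixProp, l1, l0]; simp [st]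
      | succ n ih =>
        rw [fixProp, fix_succ hm n (hle n), level_succ hm n (hle n),
          Set.ncard_image_of_injective _ (Phi_inj _), Set.ncard_image_of_injective _ (Phi_inj _),
          Set.ncard_prod, Set.ncard_prod, Nat.cast_mul, Nat.cast_mul, ← div_mul_div_comm, ratio]
        rw [fixProp] at ih
        rw [ih, st]
        simp only [act, m]
        split_ifs <;> simp
    rw [this]
    exact st_lim e α h0 h1

end Pool.Agent.Results.MP_80cb54_al.AllValues
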